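import Mathlib
import Pool.Agent.R556.AndSys

/-!
# MP_7c0615_lc: a Boolean predicate with non-redundancy between linear and quadratic

The predicate has arity `12` and `7` tuples: for every `(α, β, γ) ∈ {0,1}³` different from
`(0,0,0)` the concatenation of the one-hot encodings of the pairs `(α, β)`, `(β, γ)`, `(γ, α)`.
Its non-redundancy is at least `c n^{3/2}` and it is `o(n²)`.
-/

set_option autoImplicit false

namespace Pool.Agent.Results.MP_7c0615_lc.Intermediate

open Finset Filter Topology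

/-- The assignment `ψ` satisfies the clause `c` with respect to the predicate `P`. -/
def Satisfies {ι V : Type} (P : Set (ι → Bool)) (ψ : V → Bool) (c : ι → V) : Prop :=
  (fun i => ψ (c i)) ∈ P

/-- The instance `C` of `CSP(P)` on the set `V` of variables is non-redundant. -/
def NonRedundant {ι V : Type} (P : Set (ι → Bool)) (C : Finset (ι → V)) : Prop :=
  ∀ c ∈ C, ∃ ψ : V → Bool, (∀ c' ∈ C, c' ≠ c → Satisfies P ψ c') ∧ ¬ Satisfies P ψ c

/-- The largest number of clauses of a non-redundant instance of `CSP(P)` on `n` variables. -/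
noncomputable def NRD {r : ℕ} (P : Set (Fin r → Bool)) (n : ℕ) : ℕ :=
  sSup {k | ∃ C : Finset (Fin r → Fin n), NonRedundant P C ∧ C.card = k}

/-! ### The predicate -/

/-- The concatenation of the three one-hot encodings. -/
def tup (a : Fin 3 → Bool) : Fin 3 × Bool × Bool → Bool :=
  fun x => decide (x.2.1 = a x.1 ∧ x.2.2 = a (x.1 + 1))

/-- The predicate, with coordinates indexed by `Fin 3 × Bool × Bool`. -/
def P0 : Set (Fin 3 × Bool × Bool → Bool) := {w | ∃ a : Fin 3 → Bool, a ≠ (fun _ => false) ∧ w = tup a}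

/-- `0/1` value of a Boolean. -/
def bv (b : Bool) : ℚ := if b then 1 else 0

/-- The linear forms. -/
def ell (k : Fin 3 × Bool) (f : Fin 3 × Bool × Bool → ℚ) (o : ℚ) : ℚ :=
  if k.2 then
    (f (k.1, false, true) + f (k.1, true, true)) -
      (f (k.1 + 1, true, false) + f (k.1 + 1, true, true))
  else
    (f (k.1, false, false) + f (k.1, false, true) + f (k.1, true, false) + f (k.1, true, true)) - o

theorem ell_tup (k : Fin 3 × Bool) (a : Fin 3 → Bool) : ell k (fun i => bv (tup a i)) 1 = 0 := by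
  obtain ⟨b, t⟩ := k
  have key0 : ∀ p q : Bool, bv (decide (false = p ∧ false = q)) + bv (decide (false = p ∧ true = q))
      + bv (decide (true = p ∧ false = q)) + bv (decide (true = p ∧ true = q)) - 1 = 0 := by
    intro p q; cases p <;> cases q <;> simp [bv]
  have key1 : ∀ p q r : Bool, bv (decide (false = p ∧ true = q)) +
      bv (decide (true = p ∧ true = q)) -
      (bv (decide (true = q ∧ false = r)) + bv (decide (true = q ∧ true = r))) = 0 := by
    intro p q r; cases p <;> cases q <;> cases r <;> simp [bv]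
  cases t
  · exact key0 (a b) (a (b + 1))
  · exact key1 (a b) (a (b + 1)) (a (b + 1 + 1))

theorem onehot (p q r s : Bool) (h : bv p + bv q + bv r + bv s - 1 = 0) :
    (p = true ∧ q = false ∧ r = false ∧ s = false) ∨
    (p = false ∧ q = true ∧ r = false ∧ s = false) ∨
    (p = false ∧ q = false ∧ r = true ∧ s = false) ∨
    (p = false ∧ q = false ∧ r = false ∧ s = true) := by
  cases p <;> cases q <;> cases r <;> cases s <;> simp [bv] at h ⊢ <;> norm_num at h

theorem exists_tup (w : Fin 3 × Bool × Bool → Bool)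
    (h : ∀ k, ell k (fun i => bv (w i)) 1 = 0) : ∃ a, w = tup a := by
  have h1 : ∀ b : Fin 3, ∃ e : Bool × Bool, ∀ x y, w (b, x, y) = decide (x = e.1 ∧ y = e.2) := by
    intro b
    have := h (b, false)
    simp only [ell, Bool.false_eq_true, if_false] at this
    rcases onehot _ _ _ _ this with h | h | h | h
    · refine ⟨(false, false), ?_⟩
      intro x y; cases x <;> cases y <;> simp [h]
    · refine ⟨(false, true), ?_⟩
      intro x y; cases x <;> cases y <;> simp [h]
    · refine ⟨(true, false), ?_⟩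
      intro x y; cases x <;> cases y <;> simp [h]
    · refine ⟨(true, true), ?_⟩
      intro x y; cases x <;> cases y <;> simp [h]
  choose e he using h1
  have h2 : ∀ b : Fin 3, (e b).2 = (e (b + 1)).1 := by
    intro b
    have := h (b, true)
    simp only [ell, if_true, he] at this
    revert this
    cases (e b).1 <;> cases (e b).2 <;> cases (e (b + 1)).1 <;> cases (e (b + 1)).2 <;>
      simp [bv]
  refine ⟨fun b => (e b).1, ?_⟩
  funext x
  obtain ⟨b, x, y⟩ := x
  rw [he, tup, ← h2]

theorem mem_or (w : Fin 3 × Bool × Bool → Bool) (h : w ∉ P0) :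
    w = tup (fun _ => false) ∨ ∃ k, ell k (fun i => bv (w i)) 1 ≠ 0 := by
  by_cases hk : ∃ k, ell k (fun i => bv (w i)) 1 ≠ 0
  · exact Or.inr hk
  · push Not at hk
    obtain ⟨a, ha⟩ := exists_tup w hk
    left
    by_cases h0 : a = fun _ => false
    · rw [ha, h0]
    · exact absurd ⟨a, h0, ha⟩ h

/-- On `P0` one has `s = x ∧ y`. -/
theorem P0_and (w : Fin 3 × Bool × Bool → Bool) (h : w ∈ P0) :
    w (1, false, false) = (w (2, false, true) && w (0, true, false)) := by
  obtain ⟨a, ha, rfl⟩ := h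
  have h3 : ¬ (a 0 = false ∧ a 1 = false ∧ a 2 = false) := by
    rintro ⟨h0, h1, h2⟩
    apply ha
    funext i
    fin_cases i
    · exact h0
    · exact h1
    · exact h2
  have e1 : (1 : Fin 3) + 1 = 2 := rfl
  have e2 : (2 : Fin 3) + 1 = 0 := rfl
  have e0 : (0 : Fin 3) + 1 = 1 := rfl
  simp only [tup, e1, e2, e0]
  revert h3
  cases a 0 <;> cases a 1 <;> cases a 2 <;> simp

theorem tup_zero : tup (fun _ => false) (1, false, false) = true ∧
    tup (fun _ => false) (2, false, true) = false ∧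
    tup (fun _ => false) (0, true, false) = false := by
  simp [tup]

/-! ### Upper bound -/

theorem card_le_of_form {V T : Type} [Fintype V] [Fintype T] (p : T → Option V → ℚ)
    (L : T → (Option V → ℚ) →ₗ[ℚ] ℚ) (h0 : ∀ s t, s ≠ t → L s (p t) = 0)
    (h1 : ∀ t, L t (p t) ≠ 0) : Fintype.card T ≤ Fintype.card V + 1 := by
  classical
  have hli : LinearIndependent ℚ p := by
    rw [Fintype.linearIndependent_iff]
    intro g hg t
    have := congrArg (L t) hg
    rw [map_sum, map_zero, Finset.sum_eq_single t] at this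
    · rw [map_smul, smul_eq_mul] at this
      exact (mul_eq_zero.1 this).resolve_right (h1 t)
    · intro s _ hs
      rw [map_smul, h0 t s (Ne.symm hs), smul_zero]
    · intro h; exact absurd (mem_univ _) h
  have := hli.fintype_card_le_finrank
  simpa using this

/-- The linear form of a clause. -/
def Lc {V : Type} (k : Fin 3 × Bool) (c : Fin 3 × Bool × Bool → V) :
    (Option V → ℚ) →ₗ[ℚ] ℚ where
  toFun p := ell k (fun i => p (some (c i))) (p none)
  map_add' p q := by
    simp only [ell, Pi.add_apply]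
    split_ifs <;> ring
  map_smul' r p := by
    simp only [ell, Pi.smul_apply, smul_eq_mul, RingHom.id_apply]
    split_ifs <;> ring

theorem card_form_le {V : Type} [Fintype V] (C : Finset (Fin 3 × Bool × Bool → V))
    (ψ : (Fin 3 × Bool × Bool → V) → V → Bool)
    (h : ∀ c ∈ C, ∀ c' ∈ C, c' ≠ c → (fun i => ψ c (c' i)) ∈ P0) (k : Fin 3 × Bool)
    (hk : ∀ c ∈ C, ell k (fun i => bv (ψ c (c i))) 1 ≠ 0) :
    C.card ≤ Fintype.card V + 1 := by
  classical
  have := card_le_of_form (V := V) (T := {c // c ∈ C})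
    (fun c o => o.elim 1 (fun v => bv (ψ c.1 v))) (fun c => Lc k c.1)
    (by
      intro s t hst
      obtain ⟨a, -, ha⟩ := h t.1 t.2 s.1 s.2 (fun e => hst (Subtype.ext e))
      change ell k (fun i => bv (ψ t.1 (s.1 i))) 1 = 0
      have : (fun i => bv (ψ t.1 (s.1 i))) = fun i => bv (tup a i) := by
        funext i
        rw [← ha]
      rw [this]
      exact ell_tup k a)
    (by
      intro t
      exact hk t.1 t.2)
  simpa using this

theorem upper_aux {V : Type} [Fintype V] [DecidableEq V] (δ : ℝ)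
    (hN : ∀ T : Finset (V × V × V), R556.AndSys.IsAndSys T →
      (#T : ℝ) ≤ δ * Fintype.card V ^ 2)
    (C : Finset (Fin 3 × Bool × Bool → V)) (hC : NonRedundant P0 C) :
    (#C : ℝ) ≤ δ * Fintype.card V ^ 2 + 6 * (Fintype.card V + 1) := by
  classical
  have hex : ∀ c : Fin 3 × Bool × Bool → V, ∃ ψ : V → Bool, c ∈ C →
      (∀ c' ∈ C, c' ≠ c → Satisfies P0 ψ c') ∧ ¬ Satisfies P0 ψ c := by
    intro c
    by_cases hc : c ∈ C
    · obtain ⟨ψ, h⟩ := hC c hc
      exact ⟨ψ, fun _ => h⟩
    · exact ⟨fun _ => false, fun h => absurd h hc⟩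
  choose ψ hψ using hex
  set Cu := C.filter fun c => (fun i => ψ c (c i)) = tup (fun _ => false) with hCu
  set Ck : Fin 3 × Bool → Finset (Fin 3 × Bool × Bool → V) :=
    fun k => C.filter fun c => ell k (fun i => bv (ψ c (c i))) 1 ≠ 0 with hCk
  have hcover : C ⊆ Cu ∪ univ.biUnion Ck := by
    intro c hc
    rw [mem_union]
    rcases mem_or _ (hψ c hc).2 with h | ⟨k, h⟩
    · exact Or.inl (mem_filter.2 ⟨hc, h⟩)
    · exact Or.inr (mem_biUnion.2 ⟨k, mem_univ _, mem_filter.2 ⟨hc, h⟩⟩)
  have hk : ∀ k, (Ck k).card ≤ Fintype.card V + 1 := by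
    intro k
    apply card_form_le (Ck k) ψ _ k
    · intro c hc
      exact (mem_filter.1 hc).2
    · intro c hc c' hc' hne
      exact (hψ c (mem_filter.1 hc).1).1 c' (mem_filter.1 hc').1 hne
  have hsum : (univ.biUnion Ck).card ≤ 6 * (Fintype.card V + 1) := by
    calc _ ≤ ∑ k : Fin 3 × Bool, (Ck k).card := Finset.card_biUnion_le
      _ ≤ ∑ k : Fin 3 × Bool, (Fintype.card V + 1) := Finset.sum_le_sum fun k _ => hk k
      _ = _ := by simp
  -- the AND-system
  set g : (Fin 3 × Bool × Bool → V) → V × V × V :=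
    fun c => (c (1, false, false), c (2, false, true), c (0, true, false)) with hg
  have hand : ∀ c ∈ Cu, ψ c (g c).1 = true ∧ ψ c (g c).2.1 = false ∧ ψ c (g c).2.2 = false ∧
      ∀ c' ∈ Cu, c' ≠ c → ψ c (g c').1 = (ψ c (g c').2.1 && ψ c (g c').2.2) := by
    intro c hc
    obtain ⟨hc1, hc2⟩ := mem_filter.1 hc
    refine ⟨?_, ?_, ?_, ?_⟩
    · exact (congrFun hc2 (1, false, false)).trans tup_zero.1
    · exact (congrFun hc2 (2, false, true)).trans tup_zero.2.1
    · exact (congrFun hc2 (0, true, false)).trans tup_zero.2.2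
    · intro c' hc' hne
      exact P0_and _ ((hψ c hc1).1 c' (mem_filter.1 hc').1 hne)
  have hginj : Set.InjOn g Cu := by
    intro c hc c' hc' e
    by_contra hne
    obtain ⟨h1, h2, h3, h4⟩ := hand c hc
    have := h4 c' hc' (Ne.symm hne)
    rw [← e, h1, h2, h3] at this
    exact absurd this (by decide)
  have hsys : R556.AndSys.IsAndSys (Cu.image g) := by
    intro t ht
    obtain ⟨c, hc, rfl⟩ := mem_image.1 ht
    obtain ⟨h1, h2, h3, h4⟩ := hand c hc
    refine ⟨ψ c, h1, h2, h3, ?_⟩
    intro t' ht' hne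
    obtain ⟨c', hc', rfl⟩ := mem_image.1 ht'
    exact h4 c' hc' (fun e => hne (by rw [e]))
  have h1 := hN _ hsys
  rw [Finset.card_image_of_injOn hginj] at h1
  have h2 : C.card ≤ Cu.card + 6 * (Fintype.card V + 1) :=
    calc C.card ≤ _ := Finset.card_le_card hcover
      _ ≤ _ := Finset.card_union_le _ _
      _ ≤ _ := Nat.add_le_add_left hsum _
  have h3 : (#C : ℝ) ≤ #Cu + 6 * (Fintype.card V + 1) := by exact_mod_cast h2
  linarith

/-! ### Lower bound -/

/-- The clauses of the lower bound construction. -/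
def cl (m : ℕ) (a : Fin 3 → Fin m) :
    Fin 3 × Bool × Bool → Fin 3 × (Fin m × Fin m) × (Bool × Bool) :=
  fun x => (x.1, (a x.1, a (x.1 + 1)), x.2)

/-- The witnessing assignments. -/
def wit (m : ℕ) (a : Fin 3 → Fin m) :
    Fin 3 × (Fin m × Fin m) × (Bool × Bool) → Bool :=
  fun v => decide (v.2.2.1 = decide (v.2.1.1 ≠ a v.1) ∧ v.2.2.2 = decide (v.2.1.2 ≠ a (v.1 + 1)))

theorem wit_cl (m : ℕ) (a b : Fin 3 → Fin m) :
    (fun i => wit m a (cl m b i)) = tup (fun i => decide (b i ≠ a i)) := by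
  rfl

theorem cl_inj (m : ℕ) : Function.Injective (cl m) := by
  intro a b h
  funext i
  have := congrFun h (i, false, false)
  simp only [cl, Prod.mk.injEq] at this
  exact this.2.1.1

theorem lower (m : ℕ) {V : Type} (f : Fin 3 × (Fin m × Fin m) × (Bool × Bool) ↪ V) :
    ∃ C : Finset (Fin 3 × Bool × Bool → V), NonRedundant P0 C ∧ C.card = m ^ 3 := by
  classical
  have hinj : Function.Injective fun a : Fin 3 → Fin m => fun i => f (cl m a i) := by
    intro a b h
    apply cl_inj m
    funext i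
    exact f.injective (congrFun h i)
  refine ⟨univ.image fun a : Fin 3 → Fin m => fun i => f (cl m a i), ?_, ?_⟩
  · intro c hc
    obtain ⟨a, -, rfl⟩ := mem_image.1 hc
    have hext : ∀ v, (fun v => if h : ∃ u, f u = v then wit m a h.choose else false) (f v) =
        wit m a v := by
      intro v
      have h : ∃ u, f u = f v := ⟨v, rfl⟩
      simp only [h, dite_true]
      rw [f.injective h.choose_spec]
    refine ⟨fun v => if h : ∃ u, f u = v then wit m a h.choose else false, ?_, ?_⟩
    · intro c' hc' hne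
      obtain ⟨b, -, rfl⟩ := mem_image.1 hc'
      refine ⟨fun i => decide (b i ≠ a i), ?_, ?_⟩
      · intro e
        apply hne
        have : b = a := by
          funext i
          have := congrFun e i
          simpa using this
        rw [this]
      · rw [← wit_cl]
        funext i
        exact hext _
    · rintro ⟨a', ha', h⟩
      have h2 : (fun i => wit m a (cl m a i)) = tup a' := by
        rw [← h]
        funext i
        exact (hext _).symm
      rw [wit_cl] at h2
      apply ha'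
      have h3 : ∀ i, (tup (fun i => decide (a i ≠ a i))) (i, false, false) = true := by
        intro i; simp [tup]
      funext i
      have h4 := h3 i
      rw [h2] at h4
      simp only [tup, decide_eq_true_eq] at h4
      exact h4.1.symm
  · rw [Finset.card_image_of_injective _ hinj, Finset.card_univ]
    simp

/-! ### Transport to `Fin 12` -/

/-- The predicate of arity `12`. -/
def P12 (e : Fin 12 ≃ Fin 3 × Bool × Bool) : Set (Fin 12 → Bool) :=
  {w | (fun i => w (e.symm i)) ∈ P0}

theorem transport {V : Type} [DecidableEq V] (e : Fin 12 ≃ Fin 3 × Bool × Bool)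
    (C : Finset (Fin 12 → V)) (hC : NonRedundant (P12 e) C) :
    ∃ C' : Finset (Fin 3 × Bool × Bool → V), NonRedundant P0 C' ∧ C'.card = C.card := by
  classical
  have hinj : Function.Injective fun (c : Fin 12 → V) (i : Fin 3 × Bool × Bool) => c (e.symm i) := by
    intro c c' h
    funext i
    have := congrFun h (e i)
    simpa using this
  refine ⟨C.image fun c i => c (e.symm i), ?_, Finset.card_image_of_injective _ hinj⟩
  intro c hc
  obtain ⟨d, hd, rfl⟩ := mem_image.1 hc
  obtain ⟨ψ, h1, h2⟩ := hC d hd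
  refine ⟨ψ, ?_, h2⟩
  intro c' hc' hne
  obtain ⟨d', hd', rfl⟩ := mem_image.1 hc'
  exact h1 d' hd' (fun h => hne (by rw [h]))

theorem transport' {V : Type} [DecidableEq V] (e : Fin 12 ≃ Fin 3 × Bool × Bool)
    (C : Finset (Fin 3 × Bool × Bool → V)) (hC : NonRedundant P0 C) :
    ∃ C' : Finset (Fin 12 → V), NonRedundant (P12 e) C' ∧ C'.card = C.card := by
  classical
  have hinj : Function.Injective fun (c : Fin 3 × Bool × Bool → V) (i : Fin 12) => c (e i) := by
    intro c c' h
    funext i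
    have := congrFun h (e.symm i)
    simpa using this
  refine ⟨C.image fun c i => c (e i), ?_, Finset.card_image_of_injective _ hinj⟩
  intro c hc
  obtain ⟨d, hd, rfl⟩ := mem_image.1 hc
  obtain ⟨ψ, h1, h2⟩ := hC d hd
  have key : ∀ d' : Fin 3 × Bool × Bool → V,
      Satisfies (P12 e) ψ (fun i => d' (e i)) ↔ Satisfies P0 ψ d' := by
    intro d'
    simp only [Satisfies, P12, Set.mem_ofPred_eq, Equiv.apply_symm_apply]
  refine ⟨ψ, ?_, ?_⟩
  · intro c' hc' hne
    obtain ⟨d', hd', rfl⟩ := mem_image.1 hc'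
    rw [key]
    exact h1 d' hd' (fun h => hne (by rw [h]))
  · rw [key]
    exact h2

theorem bdd {r : ℕ} (P : Set (Fin r → Bool)) (n : ℕ) :
    BddAbove {k | ∃ C : Finset (Fin r → Fin n), NonRedundant P C ∧ C.card = k} := by
  refine ⟨Fintype.card (Fin r → Fin n), ?_⟩
  rintro k ⟨C, -, rfl⟩
  exact Finset.card_le_univ C

theorem NRD_attained {r : ℕ} (P : Set (Fin r → Bool)) (n : ℕ) :
    ∃ C : Finset (Fin r → Fin n), NonRedundant P C ∧ C.card = NRD P n := by
  have := Nat.sSup_mem (s := {k | ∃ C : Finset (Fin r → Fin n), NonRedundant P C ∧ C.card = k})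
    ⟨0, ∅, by simp [NonRedundant], rfl⟩ (bdd P n)
  exact this

theorem lower_NRD (e : Fin 12 ≃ Fin 3 × Bool × Bool) (m n : ℕ) (h : 12 * m ^ 2 ≤ n) :
    m ^ 3 ≤ NRD (P12 e) n := by
  have hcard : Fintype.card (Fin 3 × (Fin m × Fin m) × (Bool × Bool)) ≤
      Fintype.card (Fin n) := by
    simp only [Fintype.card_prod, Fintype.card_fin, Fintype.card_bool]
    nlinarith
  obtain ⟨f⟩ := Function.Embedding.nonempty_of_card_le hcard
  obtain ⟨C, hC, hCc⟩ := lower m f
  obtain ⟨C', hC', hCc'⟩ := transport' e C hC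
  rw [← hCc, ← hCc']
  exact le_csSup (bdd _ _) ⟨C', hC', rfl⟩

theorem upper_NRD (e : Fin 12 ≃ Fin 3 × Bool × Bool) (δ : ℝ) (hδ : 0 < δ) :
    ∃ N : ℕ, ∀ n, N ≤ n → (NRD (P12 e) n : ℝ) ≤ δ * n ^ 2 + 6 * (n + 1) := by
  obtain ⟨N, hN⟩ := R556.AndSys.card_small δ hδ
  refine ⟨N, fun n hn => ?_⟩
  obtain ⟨C, hC, hCc⟩ := NRD_attained (P12 e) n
  obtain ⟨C', hC', hCc'⟩ := transport e C hC
  have := upper_aux δ (hN (Fin n) (by simpa using hn)) C' hC'
  rw [hCc', hCc] at this
  simpa using this

/-- There is a Boolean predicate (of arity `12`) whose non-redundancy is superlinear (in fact at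
least `c n^{3/2}`) and subquadratic. -/
theorem result : ∃ (r : ℕ) (P : Set (Fin r → Bool)), 1 ≤ r ∧
    Tendsto (fun n : ℕ => (NRD P n : ℝ) / n) atTop atTop ∧
    Tendsto (fun n : ℕ => (NRD P n : ℝ) / (n : ℝ) ^ 2) atTop (𝓝 0) ∧
    ∃ c : ℝ, 0 < c ∧ ∀ᶠ n : ℕ in atTop, c * (n : ℝ) ^ (3 / 2 : ℝ) ≤ NRD P n := by
  classical
  have e : Fin 12 ≃ Fin 3 × Bool × Bool :=
    (Fintype.equivFinOfCardEq (by simp)).symm
  have hlow : ∀ n : ℕ, 12 ≤ n → ((n : ℝ) / 48) ^ (3 / 2 : ℝ) ≤ NRD (P12 e) n := by
    intro n hn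
    set m := Nat.sqrt (n / 12) with hm
    have h1 : m ^ 2 ≤ n / 12 := Nat.sqrt_le' _
    have h2 : n / 12 < (m + 1) ^ 2 := Nat.lt_succ_sqrt' _
    have h3 : 12 * m ^ 2 ≤ n := by omega
    have h4 : m ^ 3 ≤ NRD (P12 e) n := lower_NRD e m n h3
    have hm1 : 1 ≤ m := by
      rw [hm, Nat.le_sqrt']
      omega
    have h5 : n ≤ 48 * m ^ 2 := by
      have : n < 12 * (m + 1) ^ 2 := by omega
      nlinarith
    have h6 : (n : ℝ) / 48 ≤ (m : ℝ) ^ 2 := by
      rw [div_le_iff₀ (by norm_num)]
      have : (n : ℝ) ≤ 48 * (m : ℝ) ^ 2 := by exact_mod_cast h5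
      linarith
    calc ((n : ℝ) / 48) ^ (3 / 2 : ℝ) ≤ ((m : ℝ) ^ 2) ^ (3 / 2 : ℝ) :=
          Real.rpow_le_rpow (by positivity) h6 (by norm_num)
      _ = (m : ℝ) ^ 3 := by
          rw [← Real.rpow_natCast, ← Real.rpow_natCast, ← Real.rpow_mul (by positivity)]
          norm_num
      _ ≤ NRD (P12 e) n := by exact_mod_cast h4
  refine ⟨12, P12 e, by norm_num, ?_, ?_, (1 / 48 : ℝ) ^ (3 / 2 : ℝ), by positivity, ?_⟩
  · have hsqrt : Tendsto (fun n : ℕ => (1 / 48 : ℝ) ^ (3 / 2 : ℝ) * (n : ℝ) ^ (1 / 2 : ℝ))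
        atTop atTop := by
      apply Tendsto.const_mul_atTop (by positivity)
      exact (tendsto_rpow_atTop (by norm_num)).comp tendsto_natCast_atTop_atTop
    apply tendsto_atTop_mono' _ _ hsqrt
    filter_upwards [eventually_ge_atTop 12] with n hn
    have hn0 : (0 : ℝ) < n := by
      have : 0 < n := by omega
      exact_mod_cast this
    rw [le_div_iff₀ hn0]
    refine le_trans (le_of_eq ?_) (hlow n hn)
    have h48 : (n : ℝ) / 48 = (1 / 48) * n := by ring
    rw [h48, Real.mul_rpow (by positivity) (by positivity)]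
    have : (n : ℝ) ^ (3 / 2 : ℝ) = (n : ℝ) ^ (1 / 2 : ℝ) * n := by
      nth_rewrite 3 [← Real.rpow_one (n : ℝ)]
      rw [← Real.rpow_add hn0]
      norm_num
    rw [this]
    ring
  · rw [Metric.tendsto_atTop]
    intro ε hε
    obtain ⟨N, hN⟩ := upper_NRD e (ε / 2) (by positivity)
    obtain ⟨M, hM⟩ := exists_nat_gt (24 / ε)
    refine ⟨max (max N M) 1, fun n hn => ?_⟩
    have hn1 : N ≤ n := le_trans (le_trans (le_max_left _ _) (le_max_left _ _)) hn
    have hn2 : M ≤ n := le_trans (le_trans (le_max_right _ _) (le_max_left _ _)) hn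
    have hn3 : 1 ≤ n := le_trans (le_max_right _ _) hn
    have hn3' : (1 : ℝ) ≤ n := by exact_mod_cast hn3
    have h1 := hN n hn1
    rw [Real.dist_eq, sub_zero, abs_of_nonneg (by positivity), div_lt_iff₀ (by positivity)]
    have h2 : 24 / ε < n := lt_of_lt_of_le hM (by exact_mod_cast hn2)
    rw [div_lt_iff₀ hε] at h2
    nlinarith
  · filter_upwards [eventually_ge_atTop 12] with n hn
    refine le_trans (le_of_eq ?_) (hlow n hn)
    rw [← Real.mul_rpow (by positivity) (by positivity)]
    congr 1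
    ring

end Pool.Agent.Results.MP_7c0615_lc.Intermediate
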